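import Pool.Agent.V1178.TB.Hi

namespace Pool.Agent.V1178.TB

open Metric InnerProductSpace Topology Complex

theorem powb (q : ℝ) (h0 : 0 ≤ q) (h1 : q ≤ 1) (N : ℕ) :
    ((N : ℝ) + 1) * q ^ N * (1 - q) + q ^ (N + 1) ≤ 1 := by
  induction N with
  | zero => simp
  | succ N ih =>
    have h2 : 0 ≤ q ^ N := pow_nonneg h0 N
    have h3 : 0 ≤ ((N : ℝ) + 1) * q ^ N * (1 - q) ^ 2 := by positivity
    push_cast
    have h4 : ((N : ℝ) + 1 + 1) * q ^ (N + 1) * (1 - q) + q ^ (N + 1 + 1)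
        = ((N : ℝ) + 1) * q ^ N * (1 - q) + q ^ (N + 1) - ((N : ℝ) + 1) * q ^ N * (1 - q) ^ 2 := by
      ring
    rw [h4]
    linarith

theorem powb' (q : ℝ) (h0 : 0 ≤ q) (h1 : q ≤ 1) (N : ℕ) :
    q ^ N * (1 - q) ≤ 1 / ((N : ℝ) + 1) := by
  have h := powb q h0 h1 N
  have h2 : 0 ≤ q ^ (N + 1) := pow_nonneg h0 _
  rw [le_div_iff₀ (by positivity)]
  nlinarith

theorem nsq (m : ℕ) (a b : ℝ) (x : E (m + 3)) :
    ‖Lf m a b x‖ ^ 2 = x 0 ^ 2 + (a * x 1 + b * x 2) ^ 2 := by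
  rw [Lf_apply, Complex.sq_norm, Complex.normSq_apply]
  simp
  ring

theorem nrm3 (m : ℕ) (x : E (m + 3)) : x 0 ^ 2 + x 1 ^ 2 + x 2 ^ 2 ≤ ‖x‖ ^ 2 := by
  rw [EuclideanSpace.norm_sq_eq]
  rw [Fin.sum_univ_succ, Fin.sum_univ_succ, Fin.sum_univ_succ]
  have e1 : (0 : Fin (m + 2)).succ = (1 : Fin (m + 3)) := rfl
  have e2 : (0 : Fin (m + 1)).succ.succ = (2 : Fin (m + 3)) := rfl
  rw [e1, e2]
  have h : 0 ≤ ∑ i : Fin m, ‖x i.succ.succ.succ‖ ^ 2 :=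
    Finset.sum_nonneg fun i _ => by positivity
  simp only [Real.norm_eq_abs, sq_abs] at *
  linarith

theorem nz1 (x t : ℝ) : ‖((x : ℂ) + I * (t : ℂ)) ^ 2 - 1‖ ^ 2
    = (1 - (x ^ 2 + t ^ 2)) ^ 2 + 4 * t ^ 2 := by
  rw [Complex.sq_norm, Complex.normSq_apply]
  simp [pow_two]
  ring

theorem hh_le2 (N : ℕ) (z : ℂ) (h : ‖z‖ ≤ 1) : ‖hh N z‖ ≤ 2 := by
  unfold hh
  rw [norm_mul, norm_pow]
  have h1 : ‖z‖ ^ N ≤ 1 := pow_le_one₀ (norm_nonneg _) h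
  have h2 : ‖z ^ 2 - 1‖ ≤ 2 := by
    calc ‖z ^ 2 - 1‖ ≤ ‖z ^ 2‖ + ‖(1 : ℂ)‖ := norm_sub_le _ _
      _ ≤ 1 + 1 := by
        rw [norm_pow, norm_one]
        have : ‖z‖ ^ 2 ≤ 1 := pow_le_one₀ (norm_nonneg _) h
        linarith
      _ = 2 := by norm_num
  calc ‖z‖ ^ N * ‖z ^ 2 - 1‖ ≤ 1 * 2 := by gcongr
    _ = 2 := by norm_num

theorem hh_good (m N : ℕ) (a b δ : ℝ) (hab : a ^ 2 + b ^ 2 = 1) (hδ : 0 < δ) (x : E (m + 3))
    (hx : ‖x‖ ≤ 1) (hA : δ * (x 1 ^ 2 + x 2 ^ 2) ≤ (a * x 2 - b * x 1) ^ 2) :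
    ‖hh N (Lf m a b x)‖ ^ 2 ≤ (1 + 4 / δ) / ((N : ℝ) + 1) := by
  have h3 := nrm3 m x
  have hx2 : ‖x‖ ^ 2 ≤ 1 := pow_le_one₀ (norm_nonneg _) hx
  unfold hh
  rw [norm_mul, norm_pow, mul_pow, ← pow_mul, mul_comm N 2, pow_mul, nsq, Lf_apply, nz1]
  set t := a * x 1 + b * x 2 with ht
  set A := a * x 2 - b * x 1 with hAd
  have e1 : t ^ 2 + A ^ 2 = x 1 ^ 2 + x 2 ^ 2 := by
    rw [ht, hAd]
    linear_combination (x 1 ^ 2 + x 2 ^ 2) * hab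
  set q := x 0 ^ 2 + t ^ 2 with hq
  have hq0 : 0 ≤ q := by positivity
  have hq1 : A ^ 2 ≤ 1 - q := by rw [hq]; nlinarith
  have hA0 : 0 ≤ A ^ 2 := sq_nonneg A
  have ht2 : t ^ 2 ≤ (1 - q) / δ := by
    rw [le_div_iff₀ hδ]
    have : t ^ 2 ≤ x 1 ^ 2 + x 2 ^ 2 := by linarith
    nlinarith
  have hq2 : q ≤ 1 := by linarith
  calc q ^ N * ((1 - q) ^ 2 + 4 * t ^ 2) ≤ q ^ N * ((1 - q) + 4 * ((1 - q) / δ)) := by
        have : (1 - q) ^ 2 ≤ 1 - q := by nlinarith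
        gcongr
    _ = (1 + 4 / δ) * (q ^ N * (1 - q)) := by ring
    _ ≤ (1 + 4 / δ) * (1 / ((N : ℝ) + 1)) := by
        gcongr
        exact powb' q hq0 hq2 N
    _ = _ := by ring

theorem two_dir (a b c d δ y z : ℝ) (hab : a ^ 2 + b ^ 2 = 1) (hcd : c ^ 2 + d ^ 2 = 1)
    (hD : 4 * δ ≤ (a * d - c * b) ^ 2)
    (h1 : (a * z - b * y) ^ 2 < δ * (y ^ 2 + z ^ 2))
    (h2 : (c * z - d * y) ^ 2 < δ * (y ^ 2 + z ^ 2)) : False := by
  set A := a * z - b * y with hA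
  set B := c * z - d * y with hB
  have e1 : (d * A - b * B) = (a * d - c * b) * z := by rw [hA, hB]; ring
  have e2 : (c * A - a * B) = (a * d - c * b) * y := by rw [hA, hB]; ring
  have e3 : (a * d - c * b) ^ 2 * (y ^ 2 + z ^ 2) = (d * A - b * B) ^ 2 + (c * A - a * B) ^ 2 := by
    rw [e1, e2]; ring
  have e4 : (d * A - b * B) ^ 2 + (c * A - a * B) ^ 2 ≤ 2 * (A ^ 2 + B ^ 2) := by
    have f1 : (d * A - b * B) ^ 2 ≤ 2 * (d ^ 2 * A ^ 2 + b ^ 2 * B ^ 2) := by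
      nlinarith [sq_nonneg (d * A + b * B)]
    have f2 : (c * A - a * B) ^ 2 ≤ 2 * (c ^ 2 * A ^ 2 + a ^ 2 * B ^ 2) := by
      nlinarith [sq_nonneg (c * A + a * B)]
    have f3 : d ^ 2 * A ^ 2 + b ^ 2 * B ^ 2 + (c ^ 2 * A ^ 2 + a ^ 2 * B ^ 2) = A ^ 2 + B ^ 2 := by
      linear_combination A ^ 2 * hcd + B ^ 2 * hab
    linarith
  have hY : 0 ≤ y ^ 2 + z ^ 2 := by positivity
  have e5 : 4 * δ * (y ^ 2 + z ^ 2) ≤ (a * d - c * b) ^ 2 * (y ^ 2 + z ^ 2) :=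
    mul_le_mul_of_nonneg_right hD hY
  linarith

theorem sum_one_bad (M : ℕ) (f : ℕ → ℝ) (B ε : ℝ) (hB : 0 ≤ B) (hε : 0 ≤ ε)
    (h1 : ∀ j < M, f j ≤ B)
    (h2 : ∀ j < M, ∀ k < M, j ≠ k → f j ≤ ε ∨ f k ≤ ε) :
    ∑ j ∈ Finset.range M, f j ≤ B + M * ε := by
  by_cases h : ∀ j < M, f j ≤ ε
  · calc ∑ j ∈ Finset.range M, f j ≤ ∑ j ∈ Finset.range M, ε :=
          Finset.sum_le_sum fun j hj => h j (Finset.mem_range.1 hj)
      _ = M * ε := by simp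
      _ ≤ B + M * ε := by linarith
  · push Not at h
    obtain ⟨j, hj, hjε⟩ := h
    rw [← Finset.add_sum_erase _ _ (Finset.mem_range.2 hj)]
    have h3 : ∑ k ∈ (Finset.range M).erase j, f k ≤ ∑ k ∈ (Finset.range M).erase j, ε := by
      refine Finset.sum_le_sum fun k hk => ?_
      have hk1 := Finset.mem_erase.1 hk
      rcases h2 j hj k (Finset.mem_range.1 hk1.2) hk1.1.symm with h | h
      · exact absurd h (not_le.2 hjε)
      · exact h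
    have h4 : ∑ k ∈ (Finset.range M).erase j, ε ≤ M * ε := by
      rw [Finset.sum_const, nsmul_eq_mul]
      have : (((Finset.range M).erase j).card : ℝ) ≤ M := by
        have h5 := Finset.card_erase_le (s := Finset.range M) (a := j)
        rw [Finset.card_range] at h5
        exact_mod_cast h5
      gcongr
    have := h1 j hj
    linarith

theorem angle_sep (M j k : ℕ) (hj : j < M) (hk : k < M) (hjk : j ≠ k) :
    4 * (1 / (16 * (M : ℝ) ^ 2)) ≤ (Real.cos ((j : ℝ) / M) * Real.sin ((k : ℝ) / M)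
      - Real.cos ((k : ℝ) / M) * Real.sin ((j : ℝ) / M)) ^ 2 := by
  have hM : 0 < (M : ℝ) := by exact_mod_cast (by omega : 0 < M)
  have e1 : Real.cos ((j : ℝ) / M) * Real.sin ((k : ℝ) / M)
      - Real.cos ((k : ℝ) / M) * Real.sin ((j : ℝ) / M) = Real.sin (((k : ℝ) - j) / M) := by
    rw [sub_div, Real.sin_sub]
    ring
  rw [e1]
  have h1 : (Real.sin (((k : ℝ) - j) / M)) ^ 2 = (Real.sin (|(k : ℝ) - j| / M)) ^ 2 := by
    rcases abs_cases ((k : ℝ) - j) with h | h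
    · rw [h.1]
    · rw [h.1, neg_div, Real.sin_neg, neg_sq]
  rw [h1]
  have h2 : 1 ≤ |(k : ℝ) - j| := by
    have : (1 : ℤ) ≤ |(k : ℤ) - j| := Int.one_le_abs (by omega)
    exact_mod_cast this
  have h3 : |(k : ℝ) - j| ≤ M := by
    rw [abs_le]
    have a1 : (j : ℝ) ≤ M := by exact_mod_cast hj.le
    have a2 : (k : ℝ) ≤ M := by exact_mod_cast hk.le
    have a3 : (0 : ℝ) ≤ j := by positivity
    have a4 : (0 : ℝ) ≤ k := by positivity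
    constructor <;> linarith
  have h4 : |(k : ℝ) - j| / M ≤ 1 := by
    rw [div_le_one hM]; exact h3
  have h5 : 1 / (M : ℝ) ≤ |(k : ℝ) - j| / M := by gcongr
  have hpi : 3 < Real.pi := Real.pi_gt_three
  have hpi4 : Real.pi ≤ 4 := Real.pi_le_four
  have h6 := Real.mul_le_sin (x := |(k : ℝ) - j| / M) (by positivity) (by linarith)
  have h7 : 1 / (2 * (M : ℝ)) ≤ 2 / Real.pi * (|(k : ℝ) - j| / M) := by
    calc 1 / (2 * (M : ℝ)) = 2 / 4 * (1 / (M : ℝ)) := by field_simp; norm_num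
      _ ≤ 2 / Real.pi * (|(k : ℝ) - j| / M) := by gcongr
  have h8 : 1 / (2 * (M : ℝ)) ≤ Real.sin (|(k : ℝ) - j| / M) := h7.trans h6
  calc 4 * (1 / (16 * (M : ℝ) ^ 2)) = (1 / (2 * (M : ℝ))) ^ 2 := by field_simp; norm_num
    _ ≤ _ := by gcongr

end Pool.Agent.V1178.TB
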