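import Pool.Agent.V1178.TB.Hb

namespace Pool.Agent.V1178.TB

open Metric InnerProductSpace Topology Complex

/-- The `j`-th isotropic form among `M`. -/
noncomputable def Lj (m M j : ℕ) : E (m + 3) →L[ℝ] ℂ :=
  Lf m (Real.cos ((j : ℝ) / M)) (Real.sin ((j : ℝ) / M))

/-- The averaged function. -/
noncomputable def uu (m M N : ℕ) (ρ : ℝ) (x : E (m + 3)) : ℂ :=
  (1 / (M : ℝ)) • ∑ j ∈ Finset.range M, gg N ρ (Lj m M j x)

theorem harm_sum {n : ℕ} (s : Finset ℕ) (f : ℕ → E n → ℂ) (x : E n)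
    (h : ∀ j ∈ s, HarmonicAt (f j) x) : HarmonicAt (fun y => ∑ j ∈ s, f j y) x := by
  classical
  induction s using Finset.induction_on with
  | empty => simp
  | insert a s ha ih =>
    have e : (fun y => ∑ j ∈ insert a s, f j y) = (f a) + fun y => ∑ j ∈ s, f j y := by
      funext y
      simp [Finset.sum_insert ha]
    rw [e]
    exact (h a (Finset.mem_insert_self a s)).add
      (ih fun j hj => h j (Finset.mem_insert_of_mem hj))

theorem uu_harm (m M N : ℕ) (ρ : ℝ) (x : E (m + 3)) : HarmonicAt (uu m M N ρ) x := by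
  have h1 : HarmonicAt (fun y => ∑ j ∈ Finset.range M, gg N ρ (Lj m M j y)) x := by
    refine harm_sum _ (fun j y => gg N ρ (Lj m M j y)) x fun j _ => ?_
    exact gg_harm m _ _ (Real.cos_sq_add_sin_sq _) N ρ x
  exact h1.const_smul (c := 1 / (M : ℝ))

theorem uu_cont (m M N : ℕ) (ρ : ℝ) : Continuous (uu m M N ρ) := by
  unfold uu gg hh
  fun_prop

theorem Lj_norm (m M j : ℕ) (x : E (m + 3)) : ‖Lj m M j x‖ ≤ ‖x‖ := by
  have h := nrm3 m x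
  have h1 : ‖Lj m M j x‖ ^ 2 ≤ ‖x‖ ^ 2 := by
    refine le_trans ?_ h
    unfold Lj
    rw [nsq]
    set a := Real.cos ((j : ℝ) / M)
    set b := Real.sin ((j : ℝ) / M)
    have hab : a ^ 2 + b ^ 2 = 1 := Real.cos_sq_add_sin_sq _
    have e1 : (a * x 1 + b * x 2) ^ 2 + (a * x 2 - b * x 1) ^ 2 = x 1 ^ 2 + x 2 ^ 2 := by
      linear_combination (x 1 ^ 2 + x 2 ^ 2) * hab
    nlinarith [sq_nonneg (a * x 2 - b * x 1)]
  exact (pow_le_pow_iff_left₀ (norm_nonneg _) (norm_nonneg _) (by norm_num)).1 h1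

theorem sum_hh (m M N : ℕ) (ε : ℝ) (hε : 0 ≤ ε) (hM : 0 < M)
    (hN : (1 + 64 * (M : ℝ) ^ 2) / ((N : ℝ) + 1) ≤ ε ^ 2) (x : E (m + 3)) (hx : ‖x‖ ≤ 1) :
    ∑ j ∈ Finset.range M, ‖hh N (Lj m M j x)‖ ≤ 2 + M * ε := by
  have hM' : 0 < (M : ℝ) := by exact_mod_cast hM
  refine sum_one_bad M _ 2 ε (by norm_num) hε ?_ ?_
  · intro j _
    exact hh_le2 N _ ((Lj_norm m M j x).trans hx)
  · intro j hj k hk hjk
    have key : ∀ i : ℕ, (1 / (16 * (M : ℝ) ^ 2)) * (x 1 ^ 2 + x 2 ^ 2) ≤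
        (Real.cos ((i : ℝ) / M) * x 2 - Real.sin ((i : ℝ) / M) * x 1) ^ 2 →
        ‖hh N (Lj m M i x)‖ ≤ ε := by
      intro i hi
      have h1 := hh_good m N _ _ (1 / (16 * (M : ℝ) ^ 2)) (Real.cos_sq_add_sin_sq ((i : ℝ) / M))
        (by positivity) x hx hi
      have h2 : (1 : ℝ) + 4 / (1 / (16 * (M : ℝ) ^ 2)) = 1 + 64 * (M : ℝ) ^ 2 := by
        field_simp
        ring
      rw [h2] at h1
      exact (pow_le_pow_iff_left₀ (norm_nonneg _) hε (by norm_num)).1 (h1.trans hN)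
    by_contra hcon
    push Not at hcon
    have k1 := lt_of_not_ge (fun h => absurd (key j h) (not_le.2 hcon.1))
    have k2 := lt_of_not_ge (fun h => absurd (key k h) (not_le.2 hcon.2))
    exact two_dir _ _ _ _ _ (x 1) (x 2) (Real.cos_sq_add_sin_sq ((j : ℝ) / M))
      (Real.cos_sq_add_sin_sq ((k : ℝ) / M)) (angle_sep M j k hj hk hjk) k1 k2

theorem norm_sq_sub (z w : ℂ) (hz : ‖z‖ ≤ 1) (hw : ‖w‖ ≤ 1) : ‖z ^ 2 - w ^ 2‖ ≤ 2 := by
  calc ‖z ^ 2 - w ^ 2‖ ≤ ‖z ^ 2‖ + ‖w ^ 2‖ := norm_sub_le _ _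
    _ ≤ 1 + 1 := by
      rw [norm_pow, norm_pow]
      have h1 : ‖z‖ ^ 2 ≤ 1 := pow_le_one₀ (norm_nonneg _) hz
      have h2 : ‖w‖ ^ 2 ≤ 1 := pow_le_one₀ (norm_nonneg _) hw
      linarith
    _ = 2 := by norm_num

theorem uu_b1 (m M N : ℕ) (ε ρ : ℝ) (hε : 0 ≤ ε) (hM : 0 < M) (hρ0 : 0 < ρ) (hρ1 : ρ ≤ 1)
    (hN : (1 + 64 * (M : ℝ) ^ 2) / ((N : ℝ) + 1) ≤ ε ^ 2) (x : E (m + 3)) (hx : ‖x‖ ≤ 1) :
    ‖uu m M N ρ x‖ ≤ 2 / M * (2 + M * ε) := by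
  have hM' : 0 < (M : ℝ) := by exact_mod_cast hM
  unfold uu
  rw [norm_smul, Real.norm_of_nonneg (by positivity)]
  have h1 : ‖∑ j ∈ Finset.range M, gg N ρ (Lj m M j x)‖
      ≤ ∑ j ∈ Finset.range M, 2 * ‖hh N (Lj m M j x)‖ := by
    refine (norm_sum_le _ _).trans (Finset.sum_le_sum fun j _ => ?_)
    unfold gg
    rw [norm_mul, mul_comm]
    refine mul_le_mul_of_nonneg_right (norm_sq_sub _ _ ((Lj_norm m M j x).trans hx) ?_)
      (norm_nonneg _)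
    rw [Complex.norm_of_nonneg hρ0.le]
    exact hρ1
  rw [← Finset.mul_sum] at h1
  have h2 := sum_hh m M N ε hε hM hN x hx
  calc 1 / (M : ℝ) * ‖∑ j ∈ Finset.range M, gg N ρ (Lj m M j x)‖
      ≤ 1 / (M : ℝ) * (2 * (2 + M * ε)) := by
        gcongr
        exact h1.trans (by gcongr)
    _ = _ := by ring

theorem uu_b2 (m M N : ℕ) (ε ρ : ℝ) (hε : 0 ≤ ε) (hM : 0 < M) (hρ0 : 0 < ρ) (hρ1 : ρ ≤ 1)
    (hN : (1 + 64 * (M : ℝ) ^ 2) / ((N : ℝ) + 1) ≤ ε ^ 2) (x : E (m + 3)) (hx : ‖x‖ ≤ ρ) :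
    ‖uu m M N ρ x‖ ≤ ρ ^ N * (2 / M * (2 + M * ε)) := by
  have hM' : 0 < (M : ℝ) := by exact_mod_cast hM
  set y : E (m + 3) := ρ⁻¹ • x with hy
  have hxy : x = ρ • y := by
    rw [hy, smul_smul, mul_inv_cancel₀ hρ0.ne', one_smul]
  have hy1 : ‖y‖ ≤ 1 := by
    rw [hy, norm_smul, norm_inv, Real.norm_of_nonneg hρ0.le, inv_mul_le_iff₀ hρ0]
    simpa using hx
  unfold uu
  rw [norm_smul, Real.norm_of_nonneg (by positivity)]
  have h1 : ‖∑ j ∈ Finset.range M, gg N ρ (Lj m M j x)‖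
      ≤ ∑ j ∈ Finset.range M, (ρ ^ N * 2) * ‖hh N (Lj m M j y)‖ := by
    refine (norm_sum_le _ _).trans (Finset.sum_le_sum fun j _ => ?_)
    have e1 : Lj m M j x = (ρ : ℂ) * Lj m M j y := by
      rw [hxy, map_smul]
      simp
    have e2 : gg N ρ (Lj m M j x) = (ρ : ℂ) ^ N * ((ρ : ℂ) ^ 2 * (hh N (Lj m M j y)
        * ((Lj m M j x) ^ 2 - 1 ^ 2))) := by
      unfold gg hh
      rw [e1]
      ring
    rw [e2, norm_mul, norm_mul, norm_mul, norm_pow, norm_pow, Complex.norm_of_nonneg hρ0.le]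
    have e3 : ‖(Lj m M j x) ^ 2 - 1 ^ 2‖ ≤ 2 :=
      norm_sq_sub _ _ (((Lj_norm m M j x).trans hx).trans hρ1) (by simp)
    have e4 : ρ ^ 2 ≤ 1 := pow_le_one₀ hρ0.le hρ1
    calc ρ ^ N * (ρ ^ 2 * (‖hh N (Lj m M j y)‖ * ‖(Lj m M j x) ^ 2 - 1 ^ 2‖))
        ≤ ρ ^ N * (1 * (‖hh N (Lj m M j y)‖ * 2)) := by gcongr
      _ = _ := by ring
  rw [← Finset.mul_sum] at h1
  have h2 := sum_hh m M N ε hε hM hN y hy1
  calc 1 / (M : ℝ) * ‖∑ j ∈ Finset.range M, gg N ρ (Lj m M j x)‖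
      ≤ 1 / (M : ℝ) * ((ρ ^ N * 2) * (2 + M * ε)) := by
        gcongr
        exact h1.trans (by gcongr)
    _ = _ := by ring

theorem uu_val (m M N : ℕ) (ρ : ℝ) (hM : 0 < M) (s : ℝ) :
    uu m M N ρ (EuclideanSpace.single 0 s) = gg N ρ s := by
  have hM' : (M : ℂ) ≠ 0 := by exact_mod_cast hM.ne'
  have h1 : ∀ j, Lj m M j (EuclideanSpace.single 0 s) = s := by
    intro j
    unfold Lj
    rw [Lf_apply]
    have n1 : (1 : Fin (m + 3)) ≠ 0 := by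
      intro h
      have := congrArg Fin.val h
      rw [v1] at this
      simp at this
    have n2 : (2 : Fin (m + 3)) ≠ 0 := by
      intro h
      have := congrArg Fin.val h
      rw [v2] at this
      simp at this
    simp [n1, n2]
  unfold uu
  simp only [h1, Finset.sum_const, Finset.card_range, nsmul_eq_mul]
  rw [Complex.real_smul]
  push_cast
  field_simp

end Pool.Agent.V1178.TB
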