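import Pool.Agent.V1178.TB.Hc

namespace Pool.Agent.V1178.TB

open Metric InnerProductSpace Topology Complex Pointwise

theorem sn_le {n : ℕ} (u : E n → ℂ) (s C : ℝ) (hC : 0 ≤ C) (h : ∀ x, ‖x‖ < s → ‖u x‖ ≤ C) :
    sn u s ≤ C := by
  unfold sn
  refine Real.sSup_le ?_ hC
  rintro _ ⟨x, hx, rfl⟩
  exact h x (by simpa using hx)

theorem le_sn {n : ℕ} (u : E n → ℂ) (s C : ℝ) (h : ∀ x, ‖x‖ < s → ‖u x‖ ≤ C) (x : E n)
    (hx : ‖x‖ < s) : ‖u x‖ ≤ sn u s := by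
  unfold sn
  refine le_csSup ⟨C, ?_⟩ ⟨x, by simpa using hx, rfl⟩
  rintro _ ⟨y, hy, rfl⟩
  exact h y (by simpa using hy)

theorem sn_nonneg {n : ℕ} (u : E n → ℂ) (s : ℝ) : 0 ≤ sn u s := by
  unfold sn
  refine Real.sSup_nonneg ?_
  rintro _ ⟨x, _, rfl⟩
  exact norm_nonneg _

theorem sn_smul {n : ℕ} (u : E n → ℂ) (s c : ℝ) (hc : 0 < c) :
    sn (fun x => c • u x) s = c * sn u s := by
  unfold sn
  have e : (fun x => ‖c • u x‖) '' ball (0 : E n) s = c • ((fun x => ‖u x‖) '' ball (0 : E n) s) := by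
    rw [← Set.image_smul, Set.image_image]
    refine Set.image_congr fun x _ => ?_
    simp [norm_smul, abs_of_pos hc]
  rw [e, Real.sSup_smul_of_nonneg hc.le]
  rfl

theorem gg_real (N : ℕ) (ρ s : ℝ) (hs : 0 ≤ s) (h1 : s ≤ 1) (h2 : ρ ≤ s) (h3 : 0 ≤ ρ) :
    ‖gg N ρ (s : ℂ)‖ = s ^ N * ((1 - s ^ 2) * (s ^ 2 - ρ ^ 2)) := by
  have e : gg N ρ (s : ℂ) = ((s ^ N * (s ^ 2 - 1) * (s ^ 2 - ρ ^ 2) : ℝ) : ℂ) := by
    unfold gg hh
    push_cast
    ring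
  rw [e, Complex.norm_real, Real.norm_eq_abs, abs_mul, abs_mul, abs_of_nonneg (pow_nonneg hs N),
    abs_of_nonpos (by nlinarith : s ^ 2 - 1 ≤ 0), abs_of_nonneg (by nlinarith : 0 ≤ s ^ 2 - ρ ^ 2)]
  ring

theorem beta_pos (ρ r : ℝ) (h0 : 0 < ρ) (h1 : ρ < r) (h2 : r < 1) :
    0 < Real.log r / Real.log ρ := by
  have a : Real.log r < 0 := Real.log_neg (h0.trans h1) h2
  have b : Real.log ρ < 0 := Real.log_neg h0 (h1.trans h2)
  exact div_pos_of_neg_of_neg a b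

theorem beta_lt (ρ r : ℝ) (h0 : 0 < ρ) (h1 : ρ < r) (h2 : r < 1) :
    Real.log r / Real.log ρ < 1 := by
  have b : Real.log ρ < 0 := Real.log_neg h0 (h1.trans h2)
  rw [div_lt_one_of_neg b]
  exact Real.log_lt_log h0 h1

theorem rho_beta (ρ r : ℝ) (h0 : 0 < ρ) (h1 : ρ < r) (h2 : r < 1) :
    ρ ^ (Real.log r / Real.log ρ) = r := by
  have b : Real.log ρ < 0 := Real.log_neg h0 (h1.trans h2)
  rw [Real.rpow_def_of_pos h0, mul_div_cancel₀ _ b.ne, Real.exp_log (h0.trans h1)]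

theorem key3 (m : ℕ) (ρ r K : ℝ) (h0 : 0 < ρ) (h1 : ρ < r) (h2 : r < 1)
    (hK : ∀ u ∈ H (m + 3), sn u r ≤ K * sn u ρ ^ (Real.log r / Real.log ρ)) (M : ℕ) (hM : 0 < M) :
    (1 - r ^ 2) * (r ^ 2 - ρ ^ 2) ≤ |K| * (5 / M) := by
  have hM' : 0 < (M : ℝ) := by exact_mod_cast hM
  have hr0 : 0 < r := h0.trans h1
  set β := Real.log r / Real.log ρ with hβ
  have hβ0 : 0 < β := beta_pos ρ r h0 h1 h2
  have hβ1 : β < 1 := beta_lt ρ r h0 h1 h2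
  set c := (1 - r ^ 2) * (r ^ 2 - ρ ^ 2) with hc
  have hcpos : 0 < c := by
    have a1 : 0 < 1 - r ^ 2 := by nlinarith
    have a2 : 0 < r ^ 2 - ρ ^ 2 := by nlinarith
    positivity
  set ε : ℝ := 1 / (2 * M) with hε
  have hεpos : 0 < ε := by positivity
  obtain ⟨N, hN⟩ := exists_nat_gt ((1 + 64 * (M : ℝ) ^ 2) / ε ^ 2)
  have hN' : (1 + 64 * (M : ℝ) ^ 2) / ((N : ℝ) + 1) ≤ ε ^ 2 := by
    rw [div_le_iff₀ (by positivity)]
    rw [div_lt_iff₀ (by positivity)] at hN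
    nlinarith [sq_nonneg ε]
  have h5 : 2 / (M : ℝ) * (2 + M * ε) = 5 / M := by
    rw [hε]
    field_simp
    norm_num
  have b1 : ∀ x : E (m + 3), ‖x‖ ≤ 1 → ‖uu m M N ρ x‖ ≤ 5 / M := by
    intro x hx
    rw [← h5]
    exact uu_b1 m M N ε ρ hεpos.le hM h0 (h1.trans h2).le hN' x hx
  have b2 : ∀ x : E (m + 3), ‖x‖ ≤ ρ → ‖uu m M N ρ x‖ ≤ ρ ^ N * (5 / M) := by
    intro x hx
    rw [← h5]
    exact uu_b2 m M N ε ρ hεpos.le hM h0 (h1.trans h2).le hN' x hx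
  have hA1 : sn (uu m M N ρ) 1 ≤ 5 / M :=
    sn_le _ _ _ (by positivity) fun x hx => b1 x hx.le
  have hB : sn (uu m M N ρ) ρ ≤ ρ ^ N * (5 / M) :=
    sn_le _ _ _ (by positivity) fun x hx => b2 x hx.le
  have hB0 : 0 ≤ sn (uu m M N ρ) ρ := sn_nonneg _ _
  have hC : r ^ N * c ≤ sn (uu m M N ρ) r := by
    have l1 : ∀ s ∈ Set.Ioo ρ r, s ^ N * ((1 - s ^ 2) * (s ^ 2 - ρ ^ 2))
        ≤ sn (uu m M N ρ) r := by
      intro s hs
      have hs0 : 0 < s := h0.trans hs.1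
      have hn : ‖(EuclideanSpace.single 0 s : E (m + 3))‖ = s := by
        simp [abs_of_pos hs0]
      have := le_sn (uu m M N ρ) r (5 / M)
        (fun x hx => b1 x (hx.le.trans h2.le)) (EuclideanSpace.single 0 s)
        (by rw [hn]; exact hs.2)
      rw [uu_val m M N ρ hM, gg_real N ρ s hs0.le (hs.2.le.trans h2.le) hs.1.le h0.le] at this
      exact this
    have l2 : Filter.Tendsto (fun s : ℝ => s ^ N * ((1 - s ^ 2) * (s ^ 2 - ρ ^ 2)))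
        (𝓝[<] r) (𝓝 (r ^ N * c)) := by
      have : Continuous (fun s : ℝ => s ^ N * ((1 - s ^ 2) * (s ^ 2 - ρ ^ 2))) := by fun_prop
      exact this.continuousAt.tendsto.mono_left nhdsWithin_le_nhds
    refine le_of_tendsto l2 ?_
    filter_upwards [Ioo_mem_nhdsLT h1] with s hs
    exact l1 s hs
  set A := sn (uu m M N ρ) 1 with hA
  have hCA : sn (uu m M N ρ) r ≤ A :=
    sn_le _ _ _ (sn_nonneg _ _) fun x hx =>
      le_sn _ _ (5 / M) (fun y hy => b1 y hy.le) x (hx.trans h2)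
  have hApos : 0 < A := lt_of_lt_of_le (by positivity) (hC.trans hCA)
  have hv : (fun x => A⁻¹ • uu m M N ρ x) ∈ H (m + 3) := by
    refine ⟨?_, ?_⟩
    · intro x _
      exact (uu_harm m M N ρ x).const_smul (c := A⁻¹)
    · rw [sn_smul _ _ _ (by positivity), ← hA]
      field_simp
  have h6 := hK _ hv
  rw [sn_smul _ _ _ (by positivity), sn_smul _ _ _ (by positivity)] at h6
  set B := sn (uu m M N ρ) ρ
  set C := sn (uu m M N ρ) r
  have h7 : A⁻¹ * C ≤ |K| * (A⁻¹ * (ρ ^ N * (5 / M))) ^ β := by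
    refine h6.trans ?_
    have : (A⁻¹ * B) ^ β ≤ (A⁻¹ * (ρ ^ N * (5 / M))) ^ β := by
      gcongr
    calc K * (A⁻¹ * B) ^ β ≤ |K| * (A⁻¹ * B) ^ β := by
          have := Real.rpow_nonneg (by positivity : 0 ≤ A⁻¹ * B) β
          exact mul_le_mul_of_nonneg_right (le_abs_self K) this
      _ ≤ _ := by gcongr
  have h8 : (A⁻¹ * (ρ ^ N * (5 / M))) ^ β = A⁻¹ ^ β * (r ^ N * (5 / M) ^ β) := by
    rw [Real.mul_rpow (by positivity) (by positivity), Real.mul_rpow (by positivity) (by positivity)]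
    congr 2
    rw [← Real.rpow_natCast, ← Real.rpow_mul h0.le, mul_comm, Real.rpow_mul h0.le,
      rho_beta ρ r h0 h1 h2, Real.rpow_natCast]
  rw [h8] at h7
  have h9 : C ≤ |K| * (A ^ (1 - β) * (5 / M) ^ β * r ^ N) := by
    have e : A * (A⁻¹ * C) = C := by field_simp
    rw [← e]
    calc A * (A⁻¹ * C) ≤ A * (|K| * (A⁻¹ ^ β * (r ^ N * (5 / M) ^ β))) := by gcongr
      _ = |K| * ((A * A⁻¹ ^ β) * (5 / M) ^ β * r ^ N) := by ring
      _ = _ := by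
        congr 3
        rw [Real.rpow_sub hApos, Real.rpow_one, Real.inv_rpow hApos.le]
        ring
  have h10 : A ^ (1 - β) * (5 / M) ^ β ≤ 5 / M := by
    calc A ^ (1 - β) * (5 / M) ^ β ≤ (5 / M) ^ (1 - β) * (5 / (M : ℝ)) ^ β := by
          gcongr
      _ = 5 / M := by
          rw [← Real.rpow_add (by positivity)]
          simp
  have h11 : r ^ N * c ≤ r ^ N * (|K| * (5 / M)) := by
    calc r ^ N * c ≤ C := hC
      _ ≤ |K| * (A ^ (1 - β) * (5 / M) ^ β * r ^ N) := h9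
      _ ≤ |K| * ((5 / M) * r ^ N) := by gcongr
      _ = _ := by ring
  exact le_of_mul_le_mul_left h11 (by positivity)

theorem noK3 (m : ℕ) (ρ r : ℝ) (h0 : 0 < ρ) (h1 : ρ < r) (h2 : r < 1) :
    ¬ ∃ K : ℝ, ∀ u ∈ H (m + 3), sn u r ≤ K * sn u ρ ^ (Real.log r / Real.log ρ) := by
  rintro ⟨K, hK⟩
  have hcpos : 0 < (1 - r ^ 2) * (r ^ 2 - ρ ^ 2) := by
    have a1 : 0 < 1 - r ^ 2 := by nlinarith
    have a2 : 0 < r ^ 2 - ρ ^ 2 := by nlinarith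
    positivity
  obtain ⟨M, hM⟩ := exists_nat_gt (|K| * 5 / ((1 - r ^ 2) * (r ^ 2 - ρ ^ 2)))
  have hM0 : 0 < (M : ℝ) := lt_of_le_of_lt (by positivity) hM
  have h := key3 m ρ r K h0 h1 h2 hK M (by exact_mod_cast hM0)
  rw [div_lt_iff₀ hcpos] at hM
  have h3 : (1 - r ^ 2) * (r ^ 2 - ρ ^ 2) * M ≤ |K| * 5 := by
    calc (1 - r ^ 2) * (r ^ 2 - ρ ^ 2) * M ≤ |K| * (5 / M) * M := by gcongr
      _ = |K| * 5 := by field_simp
  linarith

end Pool.Agent.V1178.TB
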