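import Pool.Agent.V1178.TB.Iso

namespace Pool.Agent.V1178.TB

open Metric InnerProductSpace Topology Complex

/-- The isotropic linear form `x₀ + i (a x₁ + b x₂)`. -/
noncomputable def Lf (m : ℕ) (a b : ℝ) : E (m + 3) →L[ℝ] ℂ :=
  Complex.ofRealCLM.comp (EuclideanSpace.proj (0 : Fin (m + 3)))
    + (I * (a : ℂ)) • Complex.ofRealCLM.comp (EuclideanSpace.proj (1 : Fin (m + 3)))
    + (I * (b : ℂ)) • Complex.ofRealCLM.comp (EuclideanSpace.proj (2 : Fin (m + 3)))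

theorem Lf_apply (m : ℕ) (a b : ℝ) (x : E (m + 3)) :
    Lf m a b x = (x 0 : ℂ) + I * ((a * x 1 + b * x 2 : ℝ) : ℂ) := by
  simp [Lf]
  ring

theorem v1 (m : ℕ) : ((1 : Fin (m + 3)) : ℕ) = 1 := rfl
theorem v2 (m : ℕ) : ((2 : Fin (m + 3)) : ℕ) = 2 := by
  have e2 : (2 : Fin (m + 3)) = (0 : Fin (m + 1)).succ.succ := rfl
  rw [e2]
  simp

theorem Lf_iso (m : ℕ) (a b : ℝ) (h : a ^ 2 + b ^ 2 = 1) :
    ∑ i, (Lf m a b (EuclideanSpace.basisFun (Fin (m + 3)) ℝ i)) ^ 2 = 0 := by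
  have q1 := v1 m
  have q2 := v2 m
  rw [Fin.sum_univ_succ, Fin.sum_univ_succ, Fin.sum_univ_succ]
  have h0 : ∀ i : Fin m, (Lf m a b (EuclideanSpace.basisFun (Fin (m + 3)) ℝ i.succ.succ.succ)) ^ 2
      = 0 := by
    intro i
    rw [Lf_apply]
    have h1 : (0 : Fin (m + 3)) ≠ i.succ.succ.succ := (Fin.succ_ne_zero _).symm
    have h2 : (1 : Fin (m + 3)) ≠ i.succ.succ.succ := by
      intro h
      have := congrArg Fin.val h
      rw [q1] at this
      simp only [Fin.val_succ] at this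
      omega
    have h3 : (2 : Fin (m + 3)) ≠ i.succ.succ.succ := by
      intro h
      have h4 := congrArg Fin.val h
      rw [q2] at h4
      simp only [Fin.val_succ] at h4
      omega
    simp [EuclideanSpace.basisFun_apply, h1, h2, h3]
  rw [Finset.sum_eq_zero (fun i _ => h0 i)]
  have e1 : (0 : Fin (m + 2)).succ = (1 : Fin (m + 3)) := rfl
  have e2 : (0 : Fin (m + 1)).succ.succ = (2 : Fin (m + 3)) := rfl
  rw [Lf_apply, Lf_apply, Lf_apply, e1, e2]
  have n1 : (0 : Fin (m + 3)) ≠ 1 := by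
    intro h
    have := congrArg Fin.val h
    rw [q1] at this
    simp at this
  have n2 : (0 : Fin (m + 3)) ≠ 2 := by
    intro h
    have := congrArg Fin.val h
    rw [q2] at this
    simp at this
  have n3 : (1 : Fin (m + 3)) ≠ 2 := by
    intro h
    have := congrArg Fin.val h
    rw [q2, q1] at this
    omega
  simp only [EuclideanSpace.basisFun_apply, PiLp.single_apply, n1, n2, n3, n1.symm, n2.symm,
    n3.symm, if_true, if_false]
  have hI : I ^ 2 = -1 := Complex.I_sq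
  have h' : ((a : ℂ)) ^ 2 + (b : ℂ) ^ 2 = 1 := by exact_mod_cast h
  push_cast
  linear_combination (↑a ^ 2 + ↑b ^ 2) * hI - h'

/-- The polynomial `z ^ N (z² - 1)`. -/
def hh (N : ℕ) (z : ℂ) : ℂ := z ^ N * (z ^ 2 - 1)

/-- The polynomial `z ^ N (z² - 1) (z² - ρ²)`. -/
def gg (N : ℕ) (ρ : ℝ) (z : ℂ) : ℂ := hh N z * (z ^ 2 - (ρ : ℂ) ^ 2)

theorem gg_cd (N : ℕ) (ρ : ℝ) : ContDiff ℂ 2 (gg N ρ) := by
  unfold gg hh
  fun_prop

theorem gg_cd3 (N : ℕ) (ρ : ℝ) : ContDiff ℂ 3 (gg N ρ) := by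
  unfold gg hh
  fun_prop

theorem gg_harm (m : ℕ) (a b : ℝ) (h : a ^ 2 + b ^ 2 = 1) (N : ℕ) (ρ : ℝ) (x : E (m + 3)) :
    HarmonicAt (fun x => gg N ρ (Lf m a b x)) x := by
  refine harm0 (Lf m a b) (gg N ρ) (deriv (gg N ρ)) (deriv (deriv (gg N ρ))) (gg_cd N ρ)
    ?_ ?_ (Lf_iso m a b h) x
  · intro z
    exact ((gg_cd N ρ).differentiable (by norm_num)).differentiableAt.hasDerivAt
  · intro z
    have h1 : ContDiff ℂ (2 + 1) (gg N ρ) := by
      have := gg_cd3 N ρ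
      convert this using 1
      norm_num
    have h2 : ContDiff ℂ 2 (deriv (gg N ρ)) := (contDiff_succ_iff_deriv.1 h1).2.2
    exact (h2.differentiable (by norm_num)).differentiableAt.hasDerivAt

end Pool.Agent.V1178.TB
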