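import Pool.Agent.V1178.TB.Stmt

namespace Pool.Agent.V1178.TB

open Metric InnerProductSpace Topology

theorem fd1 {n : ℕ} (L : E n →L[ℝ] ℂ) (g g' : ℂ → ℂ) (hg : ∀ z, HasDerivAt g (g' z) z)
    (x : E n) : HasFDerivAt (fun x => g (L x)) (g' (L x) • L) x := by
  have h1 : HasFDerivAt g (g' (L x) • (1 : ℂ →L[ℝ] ℂ)) (L x) :=
    (hg (L x)).complexToReal_fderiv
  have h2 : HasFDerivAt (g ∘ L) ((g' (L x) • (1 : ℂ →L[ℝ] ℂ)).comp L) x :=
    h1.comp x L.hasFDerivAt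
  have h3 : (g' (L x) • (1 : ℂ →L[ℝ] ℂ)).comp L = g' (L x) • L := by
    ext v
    simp
  rw [h3] at h2
  exact h2

theorem lap0 {n : ℕ} (L : E n →L[ℝ] ℂ) (g g' g'' : ℂ → ℂ)
    (hg : ∀ z, HasDerivAt g (g' z) z) (hg' : ∀ z, HasDerivAt g' (g'' z) z)
    (hL : ∑ i, (L (EuclideanSpace.basisFun (Fin n) ℝ i)) ^ 2 = 0) (x : E n) :
    Laplacian.laplacian (fun x => g (L x)) x = 0 := by
  rw [laplacian_eq_iteratedFDeriv_orthonormalBasis _ (EuclideanSpace.basisFun (Fin n) ℝ)]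
  have h1 : fderiv ℝ (fun x => g (L x)) = fun x => g' (L x) • L := by
    funext y
    exact (fd1 L g g' hg y).fderiv
  have h2 : ∀ y : E n, ∀ v, iteratedFDeriv ℝ 2 (fun x => g (L x)) y ![v, v]
      = g'' (L y) * (L v) ^ 2 := by
    intro y v
    rw [iteratedFDeriv_two_apply, h1]
    have h3 : HasFDerivAt (fun x => g' (L x) • L)
        ((g'' (L y) • L).smulRight L) y := (fd1 L g' g'' hg' y).smul_const L
    rw [h3.fderiv]
    simp
    ring
  calc _ = ∑ i, g'' (L x) * (L (EuclideanSpace.basisFun (Fin n) ℝ i)) ^ 2 := by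
        refine Finset.sum_congr rfl fun i _ => ?_
        exact h2 x _
    _ = 0 := by rw [← Finset.mul_sum, hL, mul_zero]

theorem harm0 {n : ℕ} (L : E n →L[ℝ] ℂ) (g g' g'' : ℂ → ℂ) (hc : ContDiff ℂ 2 g)
    (hg : ∀ z, HasDerivAt g (g' z) z) (hg' : ∀ z, HasDerivAt g' (g'' z) z)
    (hL : ∑ i, (L (EuclideanSpace.basisFun (Fin n) ℝ i)) ^ 2 = 0) (x : E n) :
    HarmonicAt (fun x => g (L x)) x := by
  refine ⟨?_, ?_⟩
  · have h1 : ContDiff ℝ 2 g := hc.restrict_scalars ℝ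
    exact (h1.comp L.contDiff).contDiffAt
  · filter_upwards with y
    exact lap0 L g g' g'' hg hg' hL y

end Pool.Agent.V1178.TB
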