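import Pool.Agent.V1178.TB.Hd

namespace Pool.Agent.V1178.TB

open Metric InnerProductSpace Topology Complex ComplexConjugate

/-- The standard isometry between the complex plane and the Euclidean plane. -/
noncomputable def ee : ℂ ≃ₗᵢ[ℝ] E 2 := Complex.orthonormalBasisOneI.repr

theorem lap_tr (u : E 2 → ℂ) (z : ℂ) (h : ContDiffAt ℝ 2 u (ee z)) :
    Laplacian.laplacian (u ∘ ee) z = Laplacian.laplacian u (ee z) := by
  rw [laplacian_eq_iteratedFDeriv_orthonormalBasis _ Complex.orthonormalBasisOneI,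
    laplacian_eq_iteratedFDeriv_orthonormalBasis u (Complex.orthonormalBasisOneI.map ee)]
  refine Finset.sum_congr rfl fun i _ => ?_
  have h1 : iteratedFDeriv ℝ 2 (u ∘ ee) z
      = (iteratedFDeriv ℝ 2 u (ee z)).compContinuousLinearMap
        fun _ => (ee.toContinuousLinearEquiv : ℂ →L[ℝ] E 2) := by
    have := ee.toContinuousLinearEquiv.iteratedFDerivWithin_comp_right u
      (s := Set.univ) uniqueDiffOn_univ (x := z) (Set.mem_univ _) 2
    simpa [iteratedFDerivWithin_univ] using this
  rw [h1]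
  simp only [ContinuousMultilinearMap.compContinuousLinearMap_apply]
  congr 1
  funext j
  fin_cases j <;> simp

theorem harm_tr (u : E 2 → ℂ) (z : ℂ) (h : HarmonicAt u (ee z)) : HarmonicAt (u ∘ ee) z := by
  refine ⟨h.1.comp z ee.contDiff.contDiffAt, ?_⟩
  have h2 : ∀ᶠ w in 𝓝 z, HarmonicAt u (ee w) :=
    (ee.continuous.tendsto z).eventually h.eventually
  filter_upwards [h2] with w hw
  rw [lap_tr u w hw.1, hw.2.eq_of_nhds]
  rfl

theorem split (f : ℂ → ℂ) (h : HarmonicOnNhd f (ball 0 1)) :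
    ∃ P Q : ℂ → ℂ, DifferentiableOn ℂ P (ball 0 1) ∧ DifferentiableOn ℂ Q (ball 0 1) ∧
      ∀ z ∈ ball (0 : ℂ) 1, f z = P z + conj (Q z) := by
  have h1 : HarmonicOnNhd (Complex.reCLM ∘ f) (ball 0 1) := h.comp_CLM _
  have h2 : HarmonicOnNhd (Complex.imCLM ∘ f) (ball 0 1) := h.comp_CLM _
  obtain ⟨F, hF, hFe⟩ := h1.exists_analyticOnNhd_ball_re_eq
  obtain ⟨G, hG, hGe⟩ := h2.exists_analyticOnNhd_ball_re_eq
  refine ⟨fun z => ((1 / 2 : ℝ) : ℂ) * (F z + I * G z),
    fun z => ((1 / 2 : ℝ) : ℂ) * (F z - I * G z), ?_, ?_, ?_⟩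
  · have a := hF.differentiableOn
    have b := hG.differentiableOn
    fun_prop
  · have a := hF.differentiableOn
    have b := hG.differentiableOn
    fun_prop
  · intro z hz
    have a := hFe hz
    have b := hGe hz
    simp only [Function.comp, Complex.reCLM_apply, Complex.imCLM_apply] at a b
    simp only [map_mul, map_sub, Complex.conj_I, Complex.conj_ofReal]
    apply Complex.ext
    · simp only [Complex.add_re, Complex.mul_re, Complex.sub_re, Complex.neg_re, Complex.ofReal_re,
        Complex.ofReal_im, Complex.I_re, Complex.I_im, Complex.conj_re, Complex.conj_im,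
        Complex.add_im, Complex.mul_im, Complex.sub_im, Complex.neg_im]
      rw [← a]
      ring
    · simp only [Complex.add_re, Complex.mul_re, Complex.sub_re, Complex.neg_re, Complex.ofReal_re,
        Complex.ofReal_im, Complex.I_re, Complex.I_im, Complex.conj_re, Complex.conj_im,
        Complex.add_im, Complex.mul_im, Complex.sub_im, Complex.neg_im]
      rw [← b]
      ring

theorem cz (Q : ℂ → ℂ) (hQ : DifferentiableOn ℂ Q (ball 0 1)) (s : ℝ) (hs0 : 0 < s) (hs1 : s < 1)
    (k : ℕ) : ∮ z in C(0, s), (1 / (z - 0) ^ (k + 1 + 1)) • conj (Q z) = 0 := by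
  have hQc : ContinuousOn Q (closedBall 0 s) :=
    hQ.continuousOn.mono (closedBall_subset_ball hs1)
  have h1 : ∮ z in C(0, s), z ^ k * Q z = 0 := by
    refine DiffContOnCl.circleIntegral_eq_zero hs0.le ?_
    refine DifferentiableOn.diffContOnCl ?_
    rw [closure_ball _ hs0.ne']
    have := hQ.mono (closedBall_subset_ball hs1)
    fun_prop
  unfold circleIntegral at h1 ⊢
  simp only [deriv_circleMap, smul_eq_mul] at h1 ⊢
  have hint : IntervalIntegrable (fun θ : ℝ => circleMap 0 s θ * I * (circleMap 0 s θ ^ k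
      * Q (circleMap 0 s θ))) MeasureTheory.volume 0 (2 * Real.pi) := by
    apply Continuous.intervalIntegrable
    have hc : Continuous (fun θ : ℝ => Q (circleMap 0 s θ)) := by
      refine hQc.comp_continuous (continuous_circleMap 0 s) fun θ => ?_
      exact circleMap_mem_closedBall 0 hs0.le θ
    have hc2 := continuous_circleMap 0 s
    exact (hc2.mul continuous_const).mul ((hc2.pow k).mul hc)
  have h2 : ∫ θ in (0 : ℝ)..2 * Real.pi, conj (circleMap 0 s θ * I * (circleMap 0 s θ ^ k
      * Q (circleMap 0 s θ))) = 0 := by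
    have := (Complex.conjCLE : ℂ →L[ℝ] ℂ).intervalIntegral_comp_comm hint
    rw [h1] at this
    simpa using this
  have h3 : ∀ θ : ℝ, circleMap 0 s θ * I * (1 / (circleMap 0 s θ - 0) ^ (k + 1 + 1)
      * conj (Q (circleMap 0 s θ))) = (-(1 / (s : ℂ) ^ (2 * (k + 1)))) *
      conj (circleMap 0 s θ * I * (circleMap 0 s θ ^ k * Q (circleMap 0 s θ))) := by
    intro θ
    set w := circleMap 0 s θ with hw
    have hw0 : w ≠ 0 := by
      rw [hw]
      exact circleMap_ne_center hs0.ne'
    have hww : w * conj w = (s : ℂ) ^ 2 := by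
      rw [Complex.mul_conj, Complex.normSq_eq_norm_sq]
      have : ‖w‖ = s := by
        rw [hw]
        simp [circleMap, abs_of_pos hs0]
      rw [this]
      push_cast
      rfl
    have hcw : conj w = (s : ℂ) ^ 2 / w := by
      field_simp
      rw [mul_comm]
      exact hww
    have hs0' : (s : ℂ) ≠ 0 := by exact_mod_cast hs0.ne'
    simp only [map_mul, map_pow, Complex.conj_I, hcw, sub_zero]
    rw [div_pow]
    field_simp
    ring
  simp only [h3]
  rw [intervalIntegral.integral_const_mul, h2, mul_zero]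

theorem coef (P Q : ℂ → ℂ) (hP : DifferentiableOn ℂ P (ball 0 1))
    (hQ : DifferentiableOn ℂ Q (ball 0 1)) (s M : ℝ) (hs0 : 0 < s) (hs1 : s < 1)
    (hM : ∀ z ∈ sphere (0 : ℂ) s, ‖P z + conj (Q z)‖ ≤ M) (k : ℕ) :
    ‖((k + 1).factorial : ℂ)⁻¹ * iteratedDeriv (k + 1) P 0‖ * s ^ (k + 1) ≤ M := by
  have hPc : ContinuousOn P (closedBall 0 s) :=
    hP.continuousOn.mono (closedBall_subset_ball hs1)
  have hQc : ContinuousOn Q (closedBall 0 s) :=
    hQ.continuousOn.mono (closedBall_subset_ball hs1)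
  have hsub : sphere (0 : ℂ) s ⊆ closedBall 0 s := sphere_subset_closedBall
  have h1 := (hP.mono (closedBall_subset_ball hs1)).circleIntegral_one_div_sub_center_pow_smul
    hs0 (k + 1)
  have h2 := cz Q hQ s hs0 hs1 k
  have hz : ∀ z ∈ sphere (0 : ℂ) s, (z - 0) ^ (k + 1 + 1) ≠ 0 := by
    intro z hz
    rw [sub_zero]
    apply pow_ne_zero
    intro h0
    rw [h0] at hz
    simp at hz
    exact hs0.ne hz
  have hi : ContinuousOn (fun z : ℂ => 1 / (z - 0) ^ (k + 1 + 1)) (sphere 0 s) := by
    refine ContinuousOn.div continuousOn_const (by fun_prop) hz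
  have h3 : ∮ z in C(0, s), ((1 / (z - 0) ^ (k + 1 + 1)) • P z
      + (1 / (z - 0) ^ (k + 1 + 1)) • conj (Q z))
      = (2 * Real.pi * I / (k + 1).factorial) • iteratedDeriv (k + 1) P 0 := by
    rw [circleIntegral.integral_add, h1, h2, add_zero]
    · exact (hi.smul (hPc.mono hsub)).circleIntegrable hs0.le
    · have : ContinuousOn (fun z => conj (Q z)) (sphere 0 s) :=
        Complex.continuous_conj.comp_continuousOn (hQc.mono hsub)
      exact (hi.smul this).circleIntegrable hs0.le
  have h4 : ‖∮ z in C(0, s), ((1 / (z - 0) ^ (k + 1 + 1)) • P z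
      + (1 / (z - 0) ^ (k + 1 + 1)) • conj (Q z))‖ ≤ 2 * Real.pi * s * (M / s ^ (k + 1 + 1)) := by
    refine circleIntegral.norm_integral_le_of_norm_le_const hs0.le fun z hz => ?_
    rw [← smul_add, norm_smul, norm_div, norm_one, norm_pow, sub_zero]
    have : ‖z‖ = s := by simpa using hz
    rw [this, div_mul_eq_mul_div, one_mul]
    have := hM z hz
    gcongr
  rw [h3, smul_eq_mul] at h4
  have h5 : (2 * Real.pi * I / (k + 1).factorial : ℂ) * iteratedDeriv (k + 1) P 0
      = (2 * Real.pi * I) * (((k + 1).factorial : ℂ)⁻¹ * iteratedDeriv (k + 1) P 0) := by ring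
  have h6 : ‖(2 * Real.pi * I : ℂ)‖ = 2 * Real.pi := by
    simp [abs_of_pos Real.pi_pos]
  rw [h5, norm_mul, h6] at h4
  have h7 : 2 * Real.pi * s * (M / s ^ (k + 1 + 1)) = 2 * Real.pi * (M / s ^ (k + 1)) := by
    field_simp
    ring
  rw [h7] at h4
  have h8 := le_of_mul_le_mul_left h4 (by positivity)
  rwa [le_div_iff₀ (by positivity)] at h8

end Pool.Agent.V1178.TB
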