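import Pool.Agent.V1178.TB.Lo

namespace Pool.Agent.V1178.TB

open Metric InnerProductSpace Topology Complex ComplexConjugate

/-- The Taylor coefficients at the origin. -/
noncomputable def pc (P : ℂ → ℂ) (k : ℕ) : ℂ := (k.factorial : ℂ)⁻¹ * iteratedDeriv k P 0

theorem pc_hasSum (P : ℂ → ℂ) (hP : DifferentiableOn ℂ P (ball 0 1)) (z : ℂ) (hz : ‖z‖ < 1) :
    HasSum (fun k : ℕ => pc P k * z ^ k) (P z) := by
  have h := Complex.hasSum_taylorSeries_on_ball hP (z := z) (by simpa using hz)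
  have e : (fun k : ℕ => pc P k * z ^ k) = fun n : ℕ => (n.factorial : ℂ)⁻¹ •
      (z - 0) ^ n • iteratedDeriv n P 0 := by
    funext k
    unfold pc
    simp only [smul_eq_mul, sub_zero]
    ring
  rw [e]
  exact h

theorem ser (P : ℂ → ℂ) (hP : DifferentiableOn ℂ P (ball 0 1)) (z : ℂ) (hz : ‖z‖ < 1)
    (b : ℕ → ℝ) (hb : Summable b) (h : ∀ k, ‖pc P (k + 1)‖ * ‖z‖ ^ (k + 1) ≤ b (k + 1)) :
    ‖P z - P 0‖ ≤ ∑' k, b (k + 1) := by
  have h1 := (hasSum_nat_add_iff' 1).2 (pc_hasSum P hP z hz)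
  have h2 : P z - ∑ i ∈ Finset.range 1, pc P i * z ^ i = P z - P 0 := by
    simp [pc]
  rw [h2] at h1
  rw [← h1.tsum_eq]
  have hb1 : Summable (fun k => b (k + 1)) := (summable_nat_add_iff 1).2 hb
  refine tsum_of_norm_bounded hb1.hasSum fun k => ?_
  rw [norm_mul, norm_pow]
  exact h k

/-- The majorant sequence. -/
noncomputable def bb (ε ρ r : ℝ) (k : ℕ) : ℝ := min 1 (ε / ρ ^ k) * r ^ k

theorem bb_nonneg (ε ρ r : ℝ) (hε : 0 ≤ ε) (hρ : 0 < ρ) (hr : 0 < r) (k : ℕ) :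
    0 ≤ bb ε ρ r k := by
  unfold bb
  have : 0 ≤ min 1 (ε / ρ ^ k) := le_min zero_le_one (by positivity)
  positivity

theorem bb_sum (ε ρ r : ℝ) (hε : 0 ≤ ε) (hρ : 0 < ρ) (hr : 0 < r) (hr1 : r < 1) :
    Summable (bb ε ρ r) := by
  refine Summable.of_nonneg_of_le (bb_nonneg ε ρ r hε hρ hr) ?_
    (summable_geometric_of_lt_one hr.le hr1)
  intro k
  unfold bb
  calc min 1 (ε / ρ ^ k) * r ^ k ≤ 1 * r ^ k := by
        gcongr
        exact min_le_left _ _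
    _ = r ^ k := one_mul _

theorem W_bound (ε ρ r : ℝ) (hε : 0 < ε) (hε1 : ε ≤ 1) (h0 : 0 < ρ) (h1 : ρ < r) (h2 : r < 1) :
    ∑' k, bb ε ρ r k ≤ (1 / (1 - r) + (r / ρ) / (r / ρ - 1)) *
      ε ^ (Real.log r / Real.log ρ) := by
  have hr0 : 0 < r := h0.trans h1
  have hlρ : Real.log ρ < 0 := Real.log_neg h0 (h1.trans h2)
  set β := Real.log r / Real.log ρ with hβ
  set a := Real.log ε / Real.log ρ with ha
  have ha0 : 0 ≤ a := by
    rw [ha]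
    exact div_nonneg_of_nonpos (Real.log_nonpos hε.le hε1) hlρ.le
  have hεa : ρ ^ a = ε := by
    rw [Real.rpow_def_of_pos h0, ha, mul_div_cancel₀ _ hlρ.ne, Real.exp_log hε]
  have hra : r ^ a = ε ^ β := by
    rw [← hεa, ← Real.rpow_mul h0.le, mul_comm a β, Real.rpow_mul h0.le, hβ,
      rho_beta ρ r h0 h1 h2]
  set x := r / ρ with hx
  have hx1 : 1 < x := by
    rw [hx, one_lt_div h0]
    exact h1
  have hxa : ε * x ^ a = r ^ a := by
    rw [← hεa, hx, ← Real.mul_rpow h0.le (by positivity)]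
    congr 1
    field_simp
  set N := ⌈a⌉₊ with hN
  have hN1 : a ≤ N := Nat.le_ceil a
  have hN2 : (N : ℝ) < a + 1 := Nat.ceil_lt_add_one ha0
  have hs := bb_sum ε ρ r hε.le h0 hr0 h2
  rw [← hs.sum_add_tsum_nat_add N]
  have t1 : ∑' k, bb ε ρ r (k + N) ≤ 1 / (1 - r) * ε ^ β := by
    have e1 : ∑' k, bb ε ρ r (k + N) ≤ ∑' k, r ^ N * r ^ k := by
      refine Summable.tsum_le_tsum ?_ ((summable_nat_add_iff N).2 hs)
        ((summable_geometric_of_lt_one hr0.le h2).mul_left _)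
      intro k
      unfold bb
      calc min 1 (ε / ρ ^ (k + N)) * r ^ (k + N) ≤ 1 * r ^ (k + N) := by
            gcongr
            exact min_le_left _ _
        _ = _ := by rw [one_mul, pow_add, mul_comm]
    rw [tsum_mul_left, tsum_geometric_of_lt_one hr0.le h2] at e1
    have e2 : r ^ N ≤ ε ^ β := by
      rw [← hra, ← Real.rpow_natCast]
      exact Real.rpow_le_rpow_of_exponent_ge hr0 h2.le hN1
    have e3 : 0 < 1 - r := by linarith
    calc _ ≤ r ^ N * (1 - r)⁻¹ := e1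
      _ ≤ ε ^ β * (1 - r)⁻¹ := by gcongr
      _ = _ := by rw [one_div, mul_comm]
  have t2 : ∑ k ∈ Finset.range N, bb ε ρ r k ≤ x / (x - 1) * ε ^ β := by
    have hx0 : 0 < x - 1 := by linarith
    have e1 : ∑ k ∈ Finset.range N, bb ε ρ r k ≤ ∑ k ∈ Finset.range N, ε * x ^ k := by
      refine Finset.sum_le_sum fun k _ => ?_
      unfold bb
      calc min 1 (ε / ρ ^ k) * r ^ k ≤ (ε / ρ ^ k) * r ^ k := by
            gcongr
            exact min_le_right _ _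
        _ = _ := by rw [hx, div_pow]; ring
    rw [← Finset.mul_sum, geom_sum_eq hx1.ne'] at e1
    have e2 : x ^ N ≤ x ^ a * x := by
      rw [← Real.rpow_natCast, ← Real.rpow_add_one (by linarith)]
      exact Real.rpow_le_rpow_of_exponent_le hx1.le hN2.le
    calc _ ≤ ε * ((x ^ N - 1) / (x - 1)) := e1
      _ ≤ ε * ((x ^ a * x) / (x - 1)) := by
          gcongr
          linarith
      _ = x / (x - 1) * (ε * x ^ a) := by ring
      _ = x / (x - 1) * ε ^ β := by rw [hxa, hra]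
  calc _ ≤ x / (x - 1) * ε ^ β + 1 / (1 - r) * ε ^ β := add_le_add t2 t1
    _ = _ := by ring

theorem coef_lim (P Q : ℂ → ℂ) (hP : DifferentiableOn ℂ P (ball 0 1))
    (hQ : DifferentiableOn ℂ Q (ball 0 1)) (s M : ℝ) (hs0 : 0 < s) (hs1 : s ≤ 1)
    (hM : ∀ z : ℂ, ‖z‖ < s → ‖P z + conj (Q z)‖ ≤ M) (k : ℕ) :
    ‖pc P (k + 1)‖ * s ^ (k + 1) ≤ M := by
  have l1 : ∀ t ∈ Set.Ioo 0 s, ‖pc P (k + 1)‖ * t ^ (k + 1) ≤ M := by
    intro t ht
    exact coef P Q hP hQ t M ht.1 (ht.2.trans_le hs1)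
      (fun z hz => hM z (by
        have : ‖z‖ = t := by simpa using hz
        rw [this]; exact ht.2)) k
  have l2 : Filter.Tendsto (fun t : ℝ => ‖pc P (k + 1)‖ * t ^ (k + 1)) (𝓝[<] s)
      (𝓝 (‖pc P (k + 1)‖ * s ^ (k + 1))) := by
    have : Continuous (fun t : ℝ => ‖pc P (k + 1)‖ * t ^ (k + 1)) := by fun_prop
    exact this.continuousAt.tendsto.mono_left nhdsWithin_le_nhds
  refine le_of_tendsto l2 ?_
  filter_upwards [Ioo_mem_nhdsLT hs0] with t ht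
  exact l1 t ht

theorem coef_bb (P Q : ℂ → ℂ) (hP : DifferentiableOn ℂ P (ball 0 1))
    (hQ : DifferentiableOn ℂ Q (ball 0 1)) (ρ r ε : ℝ) (h0 : 0 < ρ) (h1 : ρ < r) (h2 : r < 1)
    (hM : ∀ z : ℂ, ‖z‖ < ρ → ‖P z + conj (Q z)‖ ≤ ε)
    (hM1 : ∀ z : ℂ, ‖z‖ < 1 → ‖P z + conj (Q z)‖ ≤ 1) (z : ℂ) (hz : ‖z‖ ≤ r) (k : ℕ) :
    ‖pc P (k + 1)‖ * ‖z‖ ^ (k + 1) ≤ bb ε ρ r (k + 1) := by
  have a1 := coef_lim P Q hP hQ ρ ε h0 (h1.trans h2).le hM k
  have a2 := coef_lim P Q hP hQ 1 1 one_pos le_rfl hM1 k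
  rw [one_pow, mul_one] at a2
  unfold bb
  have hr0 : 0 < r := h0.trans h1
  have a3 : ‖pc P (k + 1)‖ ≤ min 1 (ε / ρ ^ (k + 1)) := by
    refine le_min a2 ?_
    rwa [le_div_iff₀ (by positivity)]
  calc ‖pc P (k + 1)‖ * ‖z‖ ^ (k + 1) ≤ ‖pc P (k + 1)‖ * r ^ (k + 1) := by gcongr
    _ ≤ _ := by gcongr

theorem yesK2 (ρ r : ℝ) (h0 : 0 < ρ) (h1 : ρ < r) (h2 : r < 1) (u : E 2 → ℂ) (hu : u ∈ H 2) :
    sn u r ≤ (2 * (1 / (1 - r) + (r / ρ) / (r / ρ - 1))) *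
      sn u ρ ^ (Real.log r / Real.log ρ) := by
  obtain ⟨hharm, hone⟩ := hu
  have hr0 : 0 < r := h0.trans h1
  have hbdd : BddAbove ((fun x => ‖u x‖) '' ball (0 : E 2) 1) := by
    by_contra hcon
    unfold sn at hone
    rw [Real.sSup_of_not_bddAbove hcon] at hone
    exact zero_ne_one hone
  have hu1 : ∀ x : E 2, ‖x‖ < 1 → ‖u x‖ ≤ 1 := by
    intro x hx
    rw [← hone]
    exact le_csSup hbdd ⟨x, by simpa using hx, rfl⟩
  set ε := sn u ρ with hε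
  have hε0 : 0 ≤ ε := sn_nonneg _ _
  have hε1 : ε ≤ 1 := sn_le _ _ _ zero_le_one fun x hx => hu1 x (hx.trans (h1.trans h2))
  have huρ : ∀ x : E 2, ‖x‖ < ρ → ‖u x‖ ≤ ε := fun x hx =>
    le_sn u ρ 1 (fun y hy => hu1 y (hy.trans (h1.trans h2))) x hx
  have hf : HarmonicOnNhd (u ∘ ee) (ball 0 1) := by
    intro z hz
    refine harm_tr u z (hharm _ ?_)
    simpa using hz
  obtain ⟨P, Q, hP, hQ, hPQ⟩ := split _ hf
  have hPQ' : ∀ z : ℂ, ‖z‖ < 1 → u (ee z) = P z + conj (Q z) := fun z hz =>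
    hPQ z (by simpa using hz)
  have m1 : ∀ z : ℂ, ‖z‖ < 1 → ‖P z + conj (Q z)‖ ≤ 1 := by
    intro z hz
    rw [← hPQ' z hz]
    exact hu1 _ (by simpa using hz)
  have mρ : ∀ z : ℂ, ‖z‖ < ρ → ‖P z + conj (Q z)‖ ≤ ε := by
    intro z hz
    rw [← hPQ' z (hz.trans (h1.trans h2))]
    exact huρ _ (by simpa using hz)
  have sw : ∀ z : ℂ, ‖Q z + conj (P z)‖ = ‖P z + conj (Q z)‖ := by
    intro z
    rw [← Complex.norm_conj (P z + conj (Q z))]
    congr 1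
    simp [add_comm]
  have hs := bb_sum ε ρ r hε0 h0 hr0 h2
  have main : ∀ z : ℂ, ‖z‖ < r → ‖u (ee z)‖ ≤ 2 * ∑' k, bb ε ρ r k := by
    intro z hz
    have hz1 : ‖z‖ < 1 := hz.trans h2
    rw [hPQ' z hz1]
    have c1 := ser P hP z hz1 (bb ε ρ r) hs
      (coef_bb P Q hP hQ ρ r ε h0 h1 h2 mρ m1 z hz.le)
    have c2 := ser Q hQ z hz1 (bb ε ρ r) hs
      (coef_bb Q P hQ hP ρ r ε h0 h1 h2 (fun z hz => by rw [sw]; exact mρ z hz)
        (fun z hz => by rw [sw]; exact m1 z hz) z hz.le)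
    have c3 : ‖P 0 + conj (Q 0)‖ ≤ ε := mρ 0 (by simpa using h0)
    have c4 : P z + conj (Q z) = (P z - P 0) + conj (Q z - Q 0) + (P 0 + conj (Q 0)) := by
      rw [map_sub]
      ring
    have c5 : ∑' k, bb ε ρ r k = bb ε ρ r 0 + ∑' k, bb ε ρ r (k + 1) := hs.tsum_eq_zero_add
    have c6 : bb ε ρ r 0 = ε := by
      unfold bb
      simp [hε1]
    rw [c4, c5, c6]
    calc ‖(P z - P 0) + conj (Q z - Q 0) + (P 0 + conj (Q 0))‖
        ≤ ‖P z - P 0‖ + ‖conj (Q z - Q 0)‖ + ‖P 0 + conj (Q 0)‖ := norm_add₃_le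
      _ ≤ (∑' k, bb ε ρ r (k + 1)) + (∑' k, bb ε ρ r (k + 1)) + ε := by
          rw [Complex.norm_conj]
          gcongr
      _ ≤ _ := by linarith
  have hW0 : 0 ≤ ∑' k, bb ε ρ r k := tsum_nonneg (bb_nonneg ε ρ r hε0 h0 hr0)
  have hsn : sn u r ≤ 2 * ∑' k, bb ε ρ r k := by
    refine sn_le _ _ _ (by positivity) fun x hx => ?_
    have := main (ee.symm x) (by simpa using hx)
    simpa using this
  refine hsn.trans ?_
  rcases hε0.eq_or_lt with h | h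
  · have hb0 : ∀ k, bb ε ρ r k = 0 := by
      intro k
      unfold bb
      rw [← h]
      simp
    have hβ := beta_pos ρ r h0 h1 h2
    rw [tsum_congr hb0, tsum_zero, ← h, Real.zero_rpow hβ.ne']
    simp
  · have := W_bound ε ρ r h hε1 h0 h1 h2
    calc 2 * ∑' k, bb ε ρ r k ≤ 2 * ((1 / (1 - r) + (r / ρ) / (r / ρ - 1)) *
          ε ^ (Real.log r / Real.log ρ)) := by gcongr
      _ = _ := by ring

/-- For `n ≥ 2` and `0 < ρ < r < 1` a finite constant exists exactly when `n = 2`. -/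
theorem main_iff (n : ℕ) (hn : 2 ≤ n) (ρ r : ℝ) (h0 : 0 < ρ) (h1 : ρ < r) (h2 : r < 1) :
    (∃ K : ℝ, ∀ u ∈ H n, sn u r ≤ K * sn u ρ ^ (Real.log r / Real.log ρ)) ↔ n = 2 := by
  constructor
  · intro h
    by_contra hne
    obtain ⟨m, rfl⟩ : ∃ m, n = m + 3 := ⟨n - 3, by omega⟩
    exact noK3 m ρ r h0 h1 h2 h
  · rintro rfl
    exact ⟨_, fun u hu => yesK2 ρ r h0 h1 h2 u hu⟩

end Pool.Agent.V1178.TB
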