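import Mathlib

/-!
# Three balls: definitions
-/

namespace Pool.Agent.V1178.TB

open Metric InnerProductSpace

/-- Euclidean space of dimension `n`. -/
abbrev E (n : ℕ) := EuclideanSpace ℝ (Fin n)

/-- The supremum of `|u|` over the open ball of radius `s` about the origin
(the real supremum: it is `0` for a function that is unbounded there). -/
noncomputable def sn {n : ℕ} (u : E n → ℂ) (s : ℝ) : ℝ :=
  sSup ((fun x => ‖u x‖) '' ball (0 : E n) s)

/-- The class `H`: complex-valued harmonic functions `u` on the open unit ball of
`ℝⁿ` with `sup |u| = 1`. -/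
def H (n : ℕ) : Set (E n → ℂ) :=
  {u | HarmonicOnNhd u (ball (0 : E n) 1) ∧ sn u 1 = 1}

end Pool.Agent.V1178.TB
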